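import Pool.Agent.Lib.helper30.Lag

set_option autoImplicit false

namespace Pool.Agent.Results.MP_58c014_an.Decreasing
open MeasureTheory

/-- The weight exp(-sum x_j) times the product over k < j of (x_j - x_k)^2. -/
noncomputable def P (n : ℕ) (x : Fin n → ℝ) : ℝ :=
  Real.exp (-∑ j, x j) * ∏ j, ∏ k ∈ Finset.Iio j, (x j - x k) ^ 2

/-- F(t): integral over the closed orthant of P times the product of (x_j + t)^(-1/2). -/
noncomputable def F (n : ℕ) (t : ℝ) : ℝ :=
  ∫ x in Set.univ.pi (fun _ : Fin n => Set.Ici (0 : ℝ)), P n x * ∏ j, (x j + t) ^ (-(1 / 2) : ℝ)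

/-- G(t): integral over the closed orthant of P times the product of (x_j + t)^(1/2). -/
noncomputable def G (n : ℕ) (t : ℝ) : ℝ :=
  ∫ x in Set.univ.pi (fun _ : Fin n => Set.Ici (0 : ℝ)), P n x * ∏ j, (x j + t) ^ ((1 / 2) : ℝ)

lemma integrand (n : ℕ) (a t : ℝ) (x : Fin n → ℝ) :
    P n x * ∏ j, (x j + t) ^ a
      = (Matrix.vandermonde x).det ^ 2 * ∏ j, Pool.Agent.Lib.Helper30.Lag.wt a t (x j) := by
  rw [Matrix.det_vandermonde, P, ← Finset.sum_neg_distrib, Real.exp_sum]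
  simp only [Pool.Agent.Lib.Helper30.Lag.wt, Finset.prod_mul_distrib, ← Finset.prod_pow]
  rw [Finset.prod_comm' (s := Finset.univ) (t := fun j => Finset.Iio j) (t' := Finset.univ)
    (s' := fun k => Finset.Ioi k) (by simp)]
  ring

lemma FG (n : ℕ) {t : ℝ} (ht : 0 ≤ t) :
    F n t * G n t = (n.factorial : ℝ) ^ 2 * ((Pool.Agent.Lib.Helper30.Lag.MM n (-(1 / 2)) t).det *
      (Pool.Agent.Lib.Helper30.Lag.MM n (1 / 2) t).det) := by
  simp only [F, G, integrand]
  rw [Pool.Agent.Lib.Helper30.Lag.andreief _ (fun k => Pool.Agent.Lib.Helper30.Lag.intB k ht),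
    Pool.Agent.Lib.Helper30.Lag.andreief _ (fun k => (Pool.Agent.Lib.Helper30.Lag.succA k ht).1)]
  simp only [Pool.Agent.Lib.Helper30.Lag.MM, Pool.Agent.Lib.Helper30.Lag.mm]
  ring

lemma der (n : ℕ) (hn : 1 ≤ n) {t : ℝ} (ht : 0 < t) :
    ∃ D : ℝ, D < 0 ∧ HasDerivAt (fun s => F n s * G n s) D t := by
  obtain ⟨D, hD, h⟩ := Pool.Agent.Lib.Helper30.Lag.prod_der hn ht
  refine ⟨(n.factorial : ℝ) ^ 2 * D, mul_neg_of_pos_of_neg (by positivity) hD, ?_⟩
  refine (h.const_mul _).congr_of_eventuallyEq ?_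
  filter_upwards [Ioi_mem_nhds ht] with s hs
  exact FG n (le_of_lt hs)

theorem result (n : ℕ) (hn : 1 ≤ n) :
    StrictAntiOn (fun t => F n t * G n t) (Set.Ici 0) ∧
      ∀ t : ℝ, 0 < t → DifferentiableAt ℝ (fun s => F n s * G n s) t ∧
        2 * deriv (fun s => F n s * G n s) t < 0 := by
  constructor
  · refine strictAntiOn_of_deriv_neg (convex_Ici 0) ?_ fun t ht => ?_
    · exact (continuousOn_const.mul Pool.Agent.Lib.Helper30.Lag.prod_con).congr
        fun s hs => FG n hs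
    · rw [interior_Ici] at ht
      obtain ⟨D, hD, h⟩ := der n hn ht
      rw [h.deriv]; exact hD
  · intro t ht
    obtain ⟨D, hD, h⟩ := der n hn ht
    exact ⟨h.differentiableAt, by rw [h.deriv]; linarith⟩

end Pool.Agent.Results.MP_58c014_an.Decreasing
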